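import Mathlib

/-!
# MP_de5a23_al : a contiguous Jordan type forces a unimodal Hilbert function

For every Artinian local algebra `K` (Gorenstein or not) and every `ℓ` in the maximal ideal, if the
Jordan type of the multiplication by `ℓ` is the contiguous partition `P_c(H)` of the Hilbert
function `H` of `K`, then `H` is unimodal.
-/

set_option autoImplicit false

namespace Pool.Agent.Results.MP_de5a23_al.ContiguousUnimodal

open Module

/-! ### Definitions -/

/-- The Hilbert function `hᵢ = dim 𝔪ⁱ / 𝔪ⁱ⁺¹ = dim 𝔪ⁱ - dim 𝔪ⁱ⁺¹` of the local algebra `K`. -/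
noncomputable def hilb (k K : Type) [Field k] [CommRing K] [IsLocalRing K] [Algebra k K]
    (i : ℕ) : ℕ :=
  finrank k ↥(IsLocalRing.maximalIdeal K ^ i) - finrank k ↥(IsLocalRing.maximalIdeal K ^ (i + 1))

/-- The partition `P` consists of the Jordan block sizes of the nilpotent map `T`: there is a basis
of the form `Tⁱ uₛ`, `0 ≤ i < pₛ`, with `T^{pₛ} uₛ = 0`, and `P` is the multiset of the `pₛ`. -/
def IsJordanType {k V : Type} [Field k] [AddCommGroup V] [Module k V] (T : V →ₗ[k] V)
    (P : Multiset ℕ) : Prop :=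
  ∃ (ι : Type) (_ : Fintype ι) (p : ι → ℕ) (u : ι → V), (∀ s, 0 < p s) ∧
    (Finset.univ : Finset ι).val.map p = P ∧ (∀ s, (T ^ p s) (u s) = 0) ∧
    LinearIndependent k (fun x : (s : ι) × Fin (p s) => (T ^ (x.2 : ℕ)) (u x.1)) ∧
    Submodule.span k (Set.range fun x : (s : ι) × Fin (p s) => (T ^ (x.2 : ℕ)) (u x.1)) = ⊤

/-- The maximal runs `[a, b]` of consecutive degrees `≤ j` in `{i : hᵢ ≥ k}`. -/
def runs (h : ℕ → ℕ) (j k : ℕ) : Finset (ℕ × ℕ) :=
  (Finset.range (j + 1) ×ˢ Finset.range (j + 1)).filter fun x =>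
    x.1 ≤ x.2 ∧ (∀ i ∈ Finset.Icc x.1 x.2, k ≤ h i) ∧ (x.1 = 0 ∨ h (x.1 - 1) < k) ∧
      h (x.2 + 1) < k

/-- The contiguous partition `P_c(H)` of `H = (h₀, …, h_j)`: the lengths of the maximal runs in
`{i : hᵢ ≥ k}`, over all `k ≥ 1` (these sets are empty for `k > h₀ + ⋯ + h_j`). -/
def Pc (h : ℕ → ℕ) (j : ℕ) : Multiset ℕ :=
  ∑ k ∈ Finset.Icc 1 (∑ i ∈ Finset.range (j + 1), h i),
    (runs h j k).val.map fun x => x.2 + 1 - x.1

/-- `P_c(1,3,5,2,3) = (5,4,2,1,1,1)`. -/
example : Pc (fun i => [1, 3, 5, 2, 3].getD i 0) 4 = {5, 4, 2, 1, 1, 1} := by decide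

/-- `H` weakly increases and then weakly decreases. -/
def Unimodal (h : ℕ → ℕ) : Prop :=
  ∃ c, (∀ i i', i ≤ i' → i' ≤ c → h i ≤ h i') ∧ (∀ i i', c ≤ i → i ≤ i' → h i' ≤ h i)

/-! ### Combinatorics -/

theorem exists_dip {h : ℕ → ℕ} {j : ℕ} (hj : ∀ i, j < i → h i = 0) (hu : ¬ Unimodal h) :
    ∃ a b c, a < b ∧ b < c ∧ h b < h a ∧ h b < h c := by
  by_contra hcon
  push Not at hcon
  apply hu
  obtain ⟨c, -, hc⟩ := Finset.exists_max_image (Finset.range (j + 1)) h ⟨0, by simp⟩
  have hc' : ∀ i, h i ≤ h c := by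
    intro i
    by_cases hi : i < j + 1
    · exact hc i (Finset.mem_range.mpr hi)
    · rw [hj i (by omega)]
      exact Nat.zero_le _
  refine ⟨c, ?_, ?_⟩
  · intro i i' hii' hi'c
    by_contra hlt
    push Not at hlt
    have h1 : i < i' := lt_of_le_of_ne hii' (fun h' => by rw [h'] at hlt; exact lt_irrefl _ hlt)
    have h2 : h i' < h c := lt_of_lt_of_le hlt (hc' i)
    have h3 : i' < c := lt_of_le_of_ne hi'c (fun h' => by rw [h'] at h2; exact lt_irrefl _ h2)
    exact absurd h2 (not_lt.mpr (hcon i i' c h1 h3 hlt))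
  · intro i i' hci hii'
    by_contra hlt
    push Not at hlt
    have h1 : i < i' := lt_of_le_of_ne hii' (fun h' => by rw [h'] at hlt; exact lt_irrefl _ hlt)
    have h2 : h i < h c := lt_of_lt_of_le hlt (hc' i')
    have h3 : c < i := lt_of_le_of_ne hci (fun h' => by rw [h'] at h2; exact lt_irrefl _ h2)
    exact absurd hlt (not_lt.mpr (hcon c i i' h3 h1 h2))

theorem exists_min_dip {h : ℕ → ℕ} {j : ℕ} (hj : ∀ i, j < i → h i = 0) (hu : ¬ Unimodal h) :
    ∃ a b c, a < b ∧ b < c ∧ h b < h a ∧ h b < h c ∧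
      ∀ a' b' c', a' < b' → b' < c' → h b' < h a' → h b' < h c' → h b ≤ h b' := by
  classical
  have hex : ∃ μ, ∃ a b c, a < b ∧ b < c ∧ h b < h a ∧ h b < h c ∧ h b = μ := by
    obtain ⟨a, b, c, h1, h2, h3, h4⟩ := exists_dip hj hu
    exact ⟨h b, a, b, c, h1, h2, h3, h4, rfl⟩
  obtain ⟨a, b, c, h1, h2, h3, h4, h5⟩ := Nat.find_spec hex
  refine ⟨a, b, c, h1, h2, h3, h4, ?_⟩
  intro a' b' c' h1' h2' h3' h4'
  rw [h5]
  exact Nat.find_min' hex ⟨a', b', c', h1', h2', h3', h4', rfl⟩

/-- for `1 ≤ k ≤ μ` the set `{i : hᵢ ≥ k}` is a single run -/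
theorem exists_run {h : ℕ → ℕ} {j : ℕ} (hj : ∀ i, j < i → h i = 0) {k : ℕ} (hk : 1 ≤ k)
    (hne : ∃ a, k ≤ h a) (hdip : ∀ a' b' c', a' < b' → b' < c' → h b' < h a' → h b' < h c' →
      k ≤ h b') :
    ∃ x ∈ runs h j k, x.2 + 1 - x.1 = ((Finset.range (j + 1)).filter fun i => k ≤ h i).card := by
  classical
  have hle : ∀ i, k ≤ h i → i ≤ j := by
    intro i hi
    by_contra hcon
    rw [hj i (by omega)] at hi
    omega
  let S := (Finset.range (j + 1)).filter fun i => k ≤ h i
  have hS : S.Nonempty := by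
    obtain ⟨a, ha⟩ := hne
    exact ⟨a, Finset.mem_filter.mpr ⟨Finset.mem_range.mpr (Nat.lt_succ_of_le (hle a ha)), ha⟩⟩
  have hmem : ∀ i, i ∈ S ↔ k ≤ h i := by
    intro i
    constructor
    · intro hi
      exact (Finset.mem_filter.mp hi).2
    · intro hi
      exact Finset.mem_filter.mpr ⟨Finset.mem_range.mpr (Nat.lt_succ_of_le (hle i hi)), hi⟩
  have hs := (hmem _).mp (S.min'_mem hS)
  have ht := (hmem _).mp (S.max'_mem hS)
  have hst : S.min' hS ≤ S.max' hS := S.min'_le _ (S.max'_mem hS)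
  have hmid : ∀ i, S.min' hS ≤ i → i ≤ S.max' hS → k ≤ h i := by
    intro i hi1 hi2
    by_contra hcon
    push Not at hcon
    have h1 : S.min' hS < i := lt_of_le_of_ne hi1 (fun h' => by rw [← h'] at hcon; omega)
    have h2 : i < S.max' hS := lt_of_le_of_ne hi2 (fun h' => by rw [h'] at hcon; omega)
    have := hdip _ _ _ h1 h2 (by omega) (by omega)
    omega
  have hSI : S = Finset.Icc (S.min' hS) (S.max' hS) := by
    ext i
    rw [Finset.mem_Icc]
    constructor
    · intro hi
      exact ⟨S.min'_le _ hi, S.le_max' _ hi⟩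
    · rintro ⟨h1, h2⟩
      exact (hmem i).mpr (hmid i h1 h2)
  refine ⟨(S.min' hS, S.max' hS), ?_, ?_⟩
  · rw [runs, Finset.mem_filter]
    refine ⟨?_, hst, ?_, ?_, ?_⟩
    · rw [Finset.mem_product]
      exact ⟨Finset.mem_range.mpr (Nat.lt_succ_of_le (hle _ hs)),
        Finset.mem_range.mpr (Nat.lt_succ_of_le (hle _ ht))⟩
    · intro i hi
      rw [Finset.mem_Icc] at hi
      exact hmid i hi.1 hi.2
    · by_cases h0 : S.min' hS = 0
      · exact Or.inl h0
      · right
        by_contra hcon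
        push Not at hcon
        have := S.min'_le _ ((hmem _).mpr hcon)
        omega
    · by_contra hcon
      push Not at hcon
      have := S.le_max' _ ((hmem _).mpr hcon)
      simp only at this
      omega
  · change S.max' hS + 1 - S.min' hS = S.card
    conv_rhs => rw [hSI]
    rw [Nat.card_Icc]

theorem sum_min (h : ℕ → ℕ) (j μ : ℕ) :
    ∑ k ∈ Finset.Icc 1 μ, ((Finset.range (j + 1)).filter fun i => k ≤ h i).card =
      ∑ i ∈ Finset.range (j + 1), min (h i) μ := by
  simp only [Finset.card_filter]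
  rw [Finset.sum_comm]
  refine Finset.sum_congr rfl fun i _ => ?_
  rw [← Finset.card_filter]
  have : (Finset.Icc 1 μ).filter (fun k => k ≤ h i) = Finset.Icc 1 (min (h i) μ) := by
    ext k
    simp only [Finset.mem_filter, Finset.mem_Icc, le_min_iff]
    tauto
  rw [this, Nat.card_Icc]
  omega

/-- the sub-multiset of `P_c(H)` formed by the first `μ` levels -/
theorem exists_sub {h : ℕ → ℕ} {j : ℕ} (hj : ∀ i, j < i → h i = 0) {μ : ℕ}
    (hne : ∃ a, μ < h a) (hdip : ∀ a' b' c', a' < b' → b' < c' → h b' < h a' → h b' < h c' →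
      μ ≤ h b') :
    ∃ Q : Multiset ℕ, Q ≤ Pc h j ∧ Q.card = μ ∧
      Q.sum = ∑ i ∈ Finset.range (j + 1), min (h i) μ := by
  classical
  obtain ⟨a, ha⟩ := hne
  let L : ℕ → ℕ := fun k => ((Finset.range (j + 1)).filter fun i => k ≤ h i).card
  refine ⟨∑ k ∈ Finset.Icc 1 μ, {L k}, ?_, ?_, ?_⟩
  · have haj : a ≤ j := by
      by_contra hcon
      rw [hj a (by omega)] at ha
      omega
    have hμ : μ ≤ ∑ i ∈ Finset.range (j + 1), h i := by
      refine (le_of_lt ha).trans ?_
      exact Finset.single_le_sum (f := h) (fun i _ => Nat.zero_le _)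
        (Finset.mem_range.mpr (Nat.lt_succ_of_le haj))
    calc ∑ k ∈ Finset.Icc 1 μ, ({L k} : Multiset ℕ)
        ≤ ∑ k ∈ Finset.Icc 1 μ, (runs h j k).val.map (fun x => x.2 + 1 - x.1) := by
          refine Finset.sum_le_sum fun k hk => ?_
          rw [Finset.mem_Icc] at hk
          obtain ⟨x, hx, hx2⟩ := exists_run hj hk.1 ⟨a, hk.2.trans (le_of_lt ha)⟩
            (fun a' b' c' h1 h2 h3 h4 => hk.2.trans (hdip a' b' c' h1 h2 h3 h4))
          rw [Multiset.singleton_le, Multiset.mem_map]
          exact ⟨x, hx, hx2⟩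
      _ ≤ _ := Finset.sum_le_sum_of_subset (Finset.Icc_subset_Icc_right hμ)
  · have : ∀ s : Finset ℕ, (∑ k ∈ s, ({L k} : Multiset ℕ)).card = s.card := by
      intro s
      induction s using Finset.induction_on with
      | empty => simp
      | insert x s hx ih => rw [Finset.sum_insert hx, Finset.card_insert_of_notMem hx,
          Multiset.card_add, ih, Multiset.card_singleton, add_comm]
    rw [this, Nat.card_Icc]
    omega
  · rw [← sum_min]
    have : ∀ s : Finset ℕ, (∑ k ∈ s, ({L k} : Multiset ℕ)).sum = ∑ k ∈ s, L k := by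
      intro s
      induction s using Finset.induction_on with
      | empty => simp
      | insert x s hx ih => rw [Finset.sum_insert hx, Finset.sum_insert hx, Multiset.sum_add, ih,
          Multiset.sum_singleton]
    exact this _

/-- a sub-multiset of an image comes from a sub-multiset -/
theorem exists_le_map {α β : Type} (p : α → β) (s : Multiset α) (Q : Multiset β)
    (h : Q ≤ s.map p) : ∃ t ≤ s, t.map p = Q := by
  induction s using Quotient.inductionOn with
  | h ls =>
    induction Q using Quotient.inductionOn with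
    | h lQ =>
      obtain ⟨l, hl1, hl2⟩ : List.Subperm lQ (ls.map p) := h
      obtain ⟨l', hl', rfl⟩ := List.sublist_map_iff.mp hl2
      exact ⟨(l' : Multiset α), hl'.subperm, Quotient.sound hl1⟩

/-! ### Linear algebra -/

section LinAlg

variable {k V : Type} [Field k] [AddCommGroup V] [Module k V]

/-- the span of `μ` strings of total length `S` -/
theorem exists_submodule [FiniteDimensional k V] {T : V →ₗ[k] V} {P Q : Multiset ℕ}
    (hP : IsJordanType T P) (hQ : Q ≤ P) :
    ∃ U : Submodule k V, U.map T ≤ U ∧ finrank k U = Q.sum ∧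
      finrank k U ≤ finrank k (U.map T) + Q.card := by
  classical
  obtain ⟨ι, _, p, u, hp, rfl, hu, hli, hsp⟩ := hP
  obtain ⟨t, ht, rfl⟩ := exists_le_map p _ Q hQ
  have htn : t.Nodup := Multiset.nodup_of_le ht Finset.univ.nodup
  let S : Finset ι := ⟨t, htn⟩
  let f : ((s : S) × Fin (p s)) → V := fun x => (T ^ (x.2 : ℕ)) (u x.1)
  have hf : LinearIndependent k f := by
    let g : ((s : S) × Fin (p s)) → ((s : ι) × Fin (p s)) := fun x => ⟨x.1, x.2⟩
    have hg : Function.Injective g := by
      rintro ⟨⟨s, hs⟩, i⟩ ⟨⟨s', hs'⟩, i'⟩ h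
      simp only [g, Sigma.mk.injEq] at h
      obtain ⟨h1, h2⟩ := h
      subst h1
      simp only [heq_eq_eq] at h2
      subst h2
      rfl
    exact hli.comp g hg
  let U : Submodule k V := Submodule.span k (Set.range f)
  let W : Submodule k V := Submodule.span k (Set.range fun s : S => u s)
  have hUT : U.map T ≤ U := by
    rw [Submodule.map_span, Submodule.span_le]
    rintro _ ⟨_, ⟨⟨s, i⟩, rfl⟩, rfl⟩
    show T ((T ^ (i : ℕ)) (u s)) ∈ U
    rw [← Module.End.mul_apply, ← pow_succ']
    by_cases h : (i : ℕ) + 1 < p s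
    · exact Submodule.subset_span ⟨⟨s, ⟨(i : ℕ) + 1, h⟩⟩, rfl⟩
    · have h1 : (i : ℕ) + 1 = p s := by have := i.2; omega
      rw [h1, hu]
      exact U.zero_mem
  have hUW : U ≤ W ⊔ U.map T := by
    rw [Submodule.span_le]
    rintro _ ⟨⟨s, ⟨i, hi⟩⟩, rfl⟩
    rcases i with _ | i
    · apply Submodule.mem_sup_left
      exact Submodule.subset_span ⟨s, rfl⟩
    · apply Submodule.mem_sup_right
      refine ⟨(T ^ i) (u s), Submodule.subset_span ⟨⟨s, ⟨i, by omega⟩⟩, rfl⟩, ?_⟩
      show T ((T ^ i) (u s)) = (T ^ (i + 1)) (u s)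
      rw [← Module.End.mul_apply, ← pow_succ']
  have hW : finrank k W ≤ Multiset.card t := by
    refine (finrank_range_le_card _).trans ?_
    rw [Fintype.card_coe]
    exact le_rfl
  refine ⟨U, hUT, ?_, ?_⟩
  · rw [finrank_span_eq_card hf, Fintype.card_sigma]
    simp only [Fintype.card_fin]
    rw [Finset.sum_coe_sort S p]
    rfl
  · have h1 := Submodule.finrank_mono hUW
    have h2 := Submodule.finrank_add_le_finrank_add_finrank W (U.map T)
    rw [Multiset.card_map]
    omega

theorem finrank_map_add (T : V →ₗ[k] V) [FiniteDimensional k V] (A : Submodule k V) :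
    finrank k (A.map T) + finrank k (A ⊓ LinearMap.ker T : Submodule k V) = finrank k A := by
  have h := LinearMap.finrank_range_add_finrank_ker (T.domRestrict A)
  rw [LinearMap.range_domRestrict] at h
  have h2 : finrank k (LinearMap.ker (T.domRestrict A)) =
      finrank k (A ⊓ LinearMap.ker T : Submodule k V) := by
    have h3 : LinearMap.ker (T.domRestrict A) = (A ⊓ LinearMap.ker T).comap A.subtype := by
      ext x
      simp
    rw [h3]
    exact LinearEquiv.finrank_eq (Submodule.comapSubtypeEquivOfLe inf_le_left)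
  omega

/-- the key step -/
theorem key [FiniteDimensional k V] (T : V →ₗ[k] V) (F : ℕ → Submodule k V) (N μ : ℕ)
    (hF0 : F 0 = ⊤) (hFN : F N = ⊥) (hF : ∀ i, F (i + 1) ≤ F i)
    (hFT : ∀ i, (F i).map T ≤ F (i + 1)) (U : Submodule k V) (hUT : U.map T ≤ U)
    (hU : finrank k U ≤ finrank k (U.map T) + μ)
    (hdim : finrank k U = ∑ i ∈ Finset.range N, min (finrank k (F i) - finrank k (F (i + 1))) μ)
    (d : ℕ) (hd : μ ≤ finrank k (F d) - finrank k (F (d + 1)))
    (hd1 : finrank k (F (d + 1)) - finrank k (F (d + 2)) = μ) :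
    F (d + 1) ≤ (F d).map T ⊔ F (d + 2) := by
  have hanti : ∀ i i', i ≤ i' → F i' ≤ F i := fun i i' h =>
    antitone_nat_of_succ_le hF h
  by_cases hdN : N ≤ d + 1
  · have : F (d + 1) = ⊥ := by
      rw [eq_bot_iff, ← hFN]
      exact hanti _ _ hdN
    rw [this]
    exact bot_le
  push Not at hdN
  -- the induced filtration
  let G : ℕ → Submodule k V := fun i => U ⊓ F i
  have hG : ∀ i, G (i + 1) ≤ G i := fun i => inf_le_inf_left _ (hF i)
  have hGT : ∀ i, (G i).map T ≤ G (i + 1) := by
    intro i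
    apply le_inf
    · exact (Submodule.map_mono inf_le_left).trans hUT
    · exact (Submodule.map_mono inf_le_right).trans (hFT i)
  have hkerU : finrank k (U ⊓ LinearMap.ker T : Submodule k V) ≤ μ := by
    have := finrank_map_add T U
    omega
  have h2 : ∀ i, finrank k (G i) ≤ finrank k ((G i).map T) + μ := by
    intro i
    have e1 := finrank_map_add T (G i)
    have e2 : finrank k (G i ⊓ LinearMap.ker T : Submodule k V) ≤
        finrank k (U ⊓ LinearMap.ker T : Submodule k V) :=
      Submodule.finrank_mono (inf_le_inf_right _ inf_le_left)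
    omega
  have h2' : ∀ i, finrank k (G i) ≤ finrank k (G (i + 1)) + μ := by
    intro i
    have := Submodule.finrank_mono (hGT i)
    have := h2 i
    omega
  have hmonoG : ∀ i, finrank k (G (i + 1)) ≤ finrank k (G i) := fun i =>
    Submodule.finrank_mono (hG i)
  have hmonoF : ∀ i, finrank k (F (i + 1)) ≤ finrank k (F i) := fun i =>
    Submodule.finrank_mono (hF i)
  have hinf : ∀ i, G i ⊓ F (i + 1) = G (i + 1) := by
    intro i
    show U ⊓ F i ⊓ F (i + 1) = U ⊓ F (i + 1)
    rw [inf_assoc, inf_eq_right.mpr (hF i)]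
  have hsupinf : ∀ i, finrank k (G i ⊔ F (i + 1) : Submodule k V) + finrank k (G (i + 1)) =
      finrank k (G i) + finrank k (F (i + 1)) := by
    intro i
    rw [← hinf i]
    exact Submodule.finrank_sup_add_finrank_inf_eq _ _
  have hsup : ∀ i, G i ⊔ F (i + 1) ≤ F i := fun i => sup_le inf_le_right (hF i)
  have h3 : ∀ i, finrank k (G i) + finrank k (F (i + 1)) ≤
      finrank k (F i) + finrank k (G (i + 1)) := by
    intro i
    have e1 := hsupinf i
    have e2 := Submodule.finrank_mono (hsup i)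
    omega
  have hδ : ∀ i ∈ Finset.range N, finrank k (G i) - finrank k (G (i + 1)) ≤
      min (finrank k (F i) - finrank k (F (i + 1))) μ := by
    intro i _
    have e1 := h3 i
    have e2 := h2' i
    have e3 := hmonoG i
    have e4 := hmonoF i
    rw [le_min_iff]
    omega
  have htel : ∀ n, (∑ i ∈ Finset.range n, (finrank k (G i) - finrank k (G (i + 1)))) +
      finrank k (G n) = finrank k (G 0) := by
    intro n
    induction n with
    | zero => simp
    | succ n ih =>
      rw [Finset.sum_range_succ]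
      have := hmonoG n
      omega
  have hG0 : G 0 = U := by
    show U ⊓ F 0 = U
    rw [hF0, inf_top_eq]
  have hGN : G N = ⊥ := by
    show U ⊓ F N = ⊥
    rw [hFN, inf_bot_eq]
  have hsum : ∑ i ∈ Finset.range N, (finrank k (G i) - finrank k (G (i + 1))) =
      ∑ i ∈ Finset.range N, min (finrank k (F i) - finrank k (F (i + 1))) μ := by
    have := htel N
    rw [hG0, hGN, finrank_bot, add_zero] at this
    rw [this, hdim]
  have heq := (Finset.sum_eq_sum_iff_of_le hδ).mp hsum
  have e1 := heq d (Finset.mem_range.mpr (by omega))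
  have e2 := heq (d + 1) (Finset.mem_range.mpr hdN)
  rw [min_eq_right hd] at e1
  rw [show d + 1 + 1 = d + 2 from rfl, hd1, min_self] at e2
  -- `T` maps `G d` onto `G (d + 1)`
  have h5 : (G d).map T = G (d + 1) := by
    apply Submodule.eq_of_le_of_finrank_le (hGT d)
    have := h2 d
    have := hmonoG d
    omega
  have h6 : G (d + 1) ⊔ F (d + 2) = F (d + 1) := by
    apply Submodule.eq_of_le_of_finrank_le (hsup (d + 1))
    have := hsupinf (d + 1)
    have := hmonoF (d + 1)
    have := hmonoG (d + 1)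
    rw [show d + 1 + 1 = d + 2 from rfl] at *
    omega
  rw [← h6, ← h5]
  exact sup_le_sup_right (Submodule.map_mono inf_le_right) _

end LinAlg

/-! ### The theorem -/

section Main

variable (k K : Type) [Field k] [CommRing K] [IsLocalRing K] [Algebra k K] [FiniteDimensional k K]

/-- the powers of the maximal ideal as subspaces -/
noncomputable def Fi (i : ℕ) : Submodule k K :=
  (IsLocalRing.maximalIdeal K ^ i).restrictScalars k

omit [FiniteDimensional k K] in
theorem hilb_eq (i : ℕ) : hilb k K i = finrank k (Fi k K i) - finrank k (Fi k K (i + 1)) := rfl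

variable {k K}

omit [FiniteDimensional k K] in
theorem mem_Fi {i : ℕ} {x : K} : x ∈ Fi k K i ↔ x ∈ IsLocalRing.maximalIdeal K ^ i := Iff.rfl

omit [FiniteDimensional k K] in
theorem Fi_anti (i : ℕ) : Fi k K (i + 1) ≤ Fi k K i := fun _ hx =>
  Ideal.pow_le_pow_right (Nat.le_succ i) hx

omit [FiniteDimensional k K] in
theorem Fi_mul {ℓ : K} (hℓ : ℓ ∈ IsLocalRing.maximalIdeal K) (i : ℕ) :
    (Fi k K i).map (LinearMap.mulLeft k ℓ) ≤ Fi k K (i + 1) := by
  rintro _ ⟨x, hx, rfl⟩
  rw [LinearMap.mulLeft_apply, mem_Fi, pow_succ']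
  exact Ideal.mul_mem_mul hℓ hx

omit [FiniteDimensional k K] in
/-- propagation of the surjectivity -/
theorem propagate {ℓ : K} {d : ℕ}
    (h : Fi k K (d + 1) ≤ (Fi k K d).map (LinearMap.mulLeft k ℓ) ⊔ Fi k K (d + 2)) (n : ℕ) :
    Fi k K (d + n + 1) ≤ (Fi k K (d + n)).map (LinearMap.mulLeft k ℓ) ⊔ Fi k K (d + n + 2) := by
  induction n with
  | zero => exact h
  | succ n ih =>
    intro x hx
    rw [mem_Fi, show d + (n + 1) + 1 = d + n + 1 + 1 from rfl, pow_succ'] at hx
    induction hx using Submodule.mul_induction_on' with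
    | mem_mul_mem r hr y hy =>
      obtain ⟨y1, hy1, z, hz, rfl⟩ := Submodule.mem_sup.mp (ih (show y ∈ Fi k K (d + n + 1) from hy))
      obtain ⟨w, hw, rfl⟩ := hy1
      rw [LinearMap.mulLeft_apply, mul_add]
      apply Submodule.add_mem
      · apply Submodule.mem_sup_left
        refine ⟨r * w, ?_, ?_⟩
        · show r * w ∈ IsLocalRing.maximalIdeal K ^ (d + n + 1)
          rw [pow_succ']
          exact Ideal.mul_mem_mul hr hw
        · rw [LinearMap.mulLeft_apply]
          ring
      · apply Submodule.mem_sup_right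
        show r * z ∈ IsLocalRing.maximalIdeal K ^ (d + n + 2 + 1)
        rw [pow_succ']
        exact Ideal.mul_mem_mul hr hz
    | add x _ y _ hx hy => exact Submodule.add_mem _ hx hy

theorem hilb_succ_le {ℓ : K} (hℓ : ℓ ∈ IsLocalRing.maximalIdeal K) {i : ℕ}
    (h : Fi k K (i + 1) ≤ (Fi k K i).map (LinearMap.mulLeft k ℓ) ⊔ Fi k K (i + 2)) :
    hilb k K (i + 1) ≤ hilb k K i := by
  rw [hilb_eq, hilb_eq]
  have e0 := Fi_mul (k := k) hℓ (i + 1)
  set T := LinearMap.mulLeft k ℓ with hT
  have e1 := finrank_map_add T (Fi k K i)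
  have e2 := finrank_map_add T (Fi k K (i + 1))
  have e3 : finrank k (Fi k K (i + 1) ⊓ LinearMap.ker T : Submodule k K) ≤
      finrank k (Fi k K i ⊓ LinearMap.ker T : Submodule k K) :=
    Submodule.finrank_mono (inf_le_inf_right _ (Fi_anti i))
  have e4 := Submodule.finrank_mono h
  have e5 := Submodule.finrank_sup_add_finrank_inf_eq ((Fi k K i).map T) (Fi k K (i + 2))
  have e6 : finrank k ((Fi k K (i + 1)).map T) ≤
      finrank k ((Fi k K i).map T ⊓ Fi k K (i + 2) : Submodule k K) :=
    Submodule.finrank_mono (le_inf (Submodule.map_mono (Fi_anti i)) e0)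
  have e7 := Submodule.finrank_mono (Fi_anti (k := k) (K := K) i)
  have e8 := Submodule.finrank_mono (Fi_anti (k := k) (K := K) (i + 1))
  rw [show i + 1 + 1 = i + 2 from rfl] at *
  omega

end Main

/-- Let `K` be an Artinian local algebra over a field `k` with maximal ideal `𝔪`, `𝔪 ^ (j+1) = 0`,
with Hilbert function `H`. If the Jordan type of the multiplication by some `ℓ ∈ 𝔪` is `P_c(H)`,
then `H` is unimodal. -/
theorem result (k K : Type) [Field k] [CommRing K] [IsLocalRing K] [Algebra k K]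
    [FiniteDimensional k K] (j : ℕ) (hj : IsLocalRing.maximalIdeal K ^ (j + 1) = ⊥)
    (ℓ : K) (hℓ : ℓ ∈ IsLocalRing.maximalIdeal K)
    (hP : IsJordanType (LinearMap.mulLeft k ℓ) (Pc (hilb k K) j)) :
    Unimodal (hilb k K) := by
  have hFj : Fi k K (j + 1) = ⊥ := by
    rw [Fi, hj]
    exact Submodule.restrictScalars_bot _ _ _
  have hFj' : ∀ i, j < i → Fi k K i = ⊥ := by
    intro i hi
    rw [eq_bot_iff, ← hFj]
    exact antitone_nat_of_succ_le Fi_anti hi
  have hh : ∀ i, j < i → hilb k K i = 0 := by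
    intro i hi
    rw [hilb_eq, hFj' i hi, finrank_bot, Nat.zero_sub]
  by_contra hu
  obtain ⟨a, b, c, hab, hbc, hba, hbc', hmin⟩ := exists_min_dip hh hu
  obtain ⟨Q, hQ, hQc, hQs⟩ := exists_sub hh ⟨a, hba⟩ hmin
  obtain ⟨U, hUT, hU1, hU2⟩ := exists_submodule hP hQ
  -- the first degree after `a` where `H` drops to `μ`
  have hex : ∃ i, a < i ∧ hilb k K i ≤ hilb k K b := ⟨b, hab, le_rfl⟩
  classical
  obtain ⟨d, hd⟩ : ∃ d, Nat.find hex = d + 1 := by
    have := (Nat.find_spec hex).1
    exact ⟨Nat.find hex - 1, by omega⟩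
  have had : a ≤ d := by
    have := (Nat.find_spec hex).1
    omega
  have hdb : d + 1 ≤ b := by
    rw [← hd]
    exact Nat.find_min' hex ⟨hab, le_rfl⟩
  have hle : hilb k K (d + 1) ≤ hilb k K b := by
    rw [← hd]
    exact (Nat.find_spec hex).2
  have hdd : hilb k K b ≤ hilb k K d := by
    rcases eq_or_lt_of_le had with h | h
    · rw [← h]
      exact le_of_lt hba
    · by_contra hcon
      push Not at hcon
      exact Nat.find_min hex (m := d) (by omega) ⟨h, le_of_lt hcon⟩
  have heq : hilb k K (d + 1) = hilb k K b := by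
    apply le_antisymm hle
    by_contra hcon
    push Not at hcon
    have := hmin a (d + 1) c (by omega) (by omega) (by omega) (by omega)
    omega
  have hkey := key (LinearMap.mulLeft k ℓ) (Fi k K) (j + 1) (hilb k K b)
    (by rw [Fi, pow_zero, Ideal.one_eq_top, Submodule.restrictScalars_top]) hFj Fi_anti
    (fun i => Fi_mul hℓ i) U hUT (by rw [← hQc]; exact hU2) (by rw [hU1, hQs]; rfl) d hdd heq
  have hdec : ∀ n, hilb k K (d + n + 1) ≤ hilb k K (d + n) := fun n =>
    hilb_succ_le hℓ (propagate hkey n)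
  have hdec' : ∀ n, hilb k K (d + 1 + n) ≤ hilb k K (d + 1) := by
    intro n
    induction n with
    | zero => exact le_rfl
    | succ n ih =>
      have := hdec (n + 1)
      have e1 : d + (n + 1) + 1 = d + 1 + (n + 1) := by ring
      have e2 : d + (n + 1) = d + 1 + n := by ring
      rw [e1, e2] at this
      exact this.trans ih
  have := hdec' (c - (d + 1))
  rw [show d + 1 + (c - (d + 1)) = c by omega] at this
  omega

end Pool.Agent.Results.MP_de5a23_al.ContiguousUnimodal
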